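import Pool.Agent.V5helper19.ER.Stm

set_option autoImplicit false
open Finset

namespace V5helper87.ER

open V5helper19.ER

lemma d2_mul_left {n : ℕ} {w : G n → ℝ} {s t v : G n} (h1 : D2 w s v) (h2 : D2 w t v) :
    D2 w (s * t) v := by
  intro x
  have h3 := h1 x
  have h4 := h2 (x * s)
  rw [← mul_assoc]
  linarith

lemma d2_mul_right {n : ℕ} {w : G n → ℝ} {u s t : G n} (hc : u * s = s * u) (h1 : D2 w u s)
    (h2 : D2 w u t) : D2 w u (s * t) := by
  intro x
  have h3 := h1 x
  have h4 := h2 (x * s)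
  have e : x * s * u = x * u * s := by rw [mul_assoc, ← hc, mul_assoc]
  rw [e] at h4
  rw [← mul_assoc, ← mul_assoc]
  linarith

lemma three_cycle {n : ℕ} {z : Equiv.Perm (Fin n)} (h : z.IsThreeCycle) :
    ∃ a b c : Fin n, [a, b, c].Nodup ∧ (∀ x ∈ [a, b, c], z x ≠ x) ∧
      z = Equiv.swap a b * Equiv.swap b c := by
  classical
  have h3 : orderOf z = 3 := h.orderOf
  have hs : z.support.card = 3 := h.card_support
  obtain ⟨a, ha⟩ : ∃ a, a ∈ z.support := Finset.card_pos.mp (by omega)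
  have ha' : z a ≠ a := Equiv.Perm.mem_support.mp ha
  have h1 : z (z (z a)) = a := by
    have h2 : (z ^ 3) a = a := by rw [← h3, pow_orderOf_eq_one]; rfl
    exact h2
  have h4 : z a ≠ z (z a) := fun h => ha' (z.injective h).symm
  have h5 : z (z a) ≠ a := fun h => ha' ((congrArg z h).symm.trans h1)
  have h6 : a ≠ z a := ha'.symm
  have h7 : a ≠ z (z a) := h5.symm
  have hsup : z.support = {a, z a, z (z a)} := by
    refine (Finset.eq_of_subset_of_card_le ?_ ?_).symm
    · intro x hx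
      rw [Finset.mem_insert, Finset.mem_insert, Finset.mem_singleton] at hx
      rw [Equiv.Perm.mem_support]
      rcases hx with rfl | rfl | rfl
      · exact ha'
      · exact h4.symm
      · rw [h1]
        exact h7
    · rw [hs, Finset.card_eq_three.mpr ⟨a, z a, z (z a), h6, h7, h4, rfl⟩]
  refine ⟨a, z a, z (z a), ?_, ?_, ?_⟩
  · simp [h6, h7, h4]
  · intro x hx
    rw [← Equiv.Perm.mem_support, hsup]
    simpa using hx
  · ext x
    congr 1
    rw [Equiv.Perm.mul_apply]
    by_cases hx1 : x = a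
    · subst hx1
      rw [Equiv.swap_apply_of_ne_of_ne h6 h7, Equiv.swap_apply_left]
    · by_cases hx2 : x = z a
      · rw [hx2, Equiv.swap_apply_left, Equiv.swap_apply_of_ne_of_ne h7.symm h4.symm]
      · by_cases hx3 : x = z (z a)
        · rw [hx3, Equiv.swap_apply_right, Equiv.swap_apply_right, h1]
        · rw [Equiv.swap_apply_of_ne_of_ne hx2 hx3, Equiv.swap_apply_of_ne_of_ne hx1 hx2]
          by_contra hx4
          have h8 : x ∈ z.support := Equiv.Perm.mem_support.mpr hx4
          rw [hsup] at h8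
          simp [hx1, hx2, hx3] at h8

lemma new_point {n : ℕ} (l : List (Fin n)) (h : l.length < n) : ∃ x, x ∉ l := by
  classical
  by_contra hcon
  push Not at hcon
  have h1 : (Finset.univ : Finset (Fin n)) ⊆ l.toFinset := fun x _ => List.mem_toFinset.mpr (hcon x)
  have h2 := Finset.card_le_card h1
  rw [Finset.card_univ, Fintype.card_fin] at h2
  have h3 := l.toFinset_card_le
  omega

/-- the double transposition as an element of the alternating group -/
def dt {n : ℕ} (a b c d : Fin n) (h : [a, b, c, d].Nodup) : G n :=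
  ⟨Equiv.swap a b * Equiv.swap c d, by
    have h1 : a ≠ b := by
      rintro rfl
      simp at h
    have h2 : c ≠ d := by
      rintro rfl
      simp at h
    rw [Equiv.Perm.mem_alternatingGroup, map_mul, Equiv.Perm.sign_swap h1, Equiv.Perm.sign_swap h2]
    rfl⟩

lemma dtr_dt {n : ℕ} (a b c d : Fin n) (h : [a, b, c, d].Nodup) : DTr (dt a b c d h) a b c d :=
  ⟨h, rfl⟩

lemma dt_comm {n : ℕ} {a b c d a' b' c' d' : Fin n} (h : [a, b, c, d].Nodup)
    (h' : [a', b', c', d'].Nodup) (hn : [a, b, c, d, a', b', c', d'].Nodup) :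
    dt a b c d h * dt a' b' c' d' h' = dt a' b' c' d' h' * dt a b c d h := by
  have key : ∀ idx : List (Fin 8), idx.Nodup →
      (idx.map [a, b, c, d, a', b', c', d'].get).Nodup :=
    fun idx h => h.map (List.nodup_iff_injective_get.mp hn)
  refine Subtype.ext ?_
  change Equiv.swap a b * Equiv.swap c d * (Equiv.swap a' b' * Equiv.swap c' d') =
    Equiv.swap a' b' * Equiv.swap c' d' * (Equiv.swap a b * Equiv.swap c d)
  have e1 : Commute (Equiv.swap a b) (Equiv.swap a' b') :=
    (Equiv.Perm.disjoint_swap_swap (key [0, 1, 4, 5] (by decide))).commute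
  have e2 : Commute (Equiv.swap a b) (Equiv.swap c' d') :=
    (Equiv.Perm.disjoint_swap_swap (key [0, 1, 6, 7] (by decide))).commute
  have e3 : Commute (Equiv.swap c d) (Equiv.swap a' b') :=
    (Equiv.Perm.disjoint_swap_swap (key [2, 3, 4, 5] (by decide))).commute
  have e4 : Commute (Equiv.swap c d) (Equiv.swap c' d') :=
    (Equiv.Perm.disjoint_swap_swap (key [2, 3, 6, 7] (by decide))).commute
  exact (e1.mul_right e2).mul_left (e3.mul_right e4)

theorem t_DT : S_DT := by
  intro n hn w hw z z' hz hz' hd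
  obtain ⟨a, b, c, h1, h2, h3⟩ := three_cycle hz
  obtain ⟨a', b', c', h1', h2', h3'⟩ := three_cycle hz'
  have h0 : ([a, b, c] ++ [a', b', c']).Nodup := by
    refine List.Nodup.append h1 h1' ?_
    intro x hx hx'
    rcases hd x with h | h
    · exact h2 x hx h
    · exact h2' x hx' h
  obtain ⟨d, hd1⟩ := new_point ([a, b, c] ++ [a', b', c']) (by simp; omega)
  obtain ⟨e, he1⟩ := new_point (d :: ([a, b, c] ++ [a', b', c'])) (by simp; omega)
  obtain ⟨d', hd2⟩ := new_point (e :: d :: ([a, b, c] ++ [a', b', c'])) (by simp; omega)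
  obtain ⟨e', he2⟩ := new_point (d' :: e :: d :: ([a, b, c] ++ [a', b', c'])) (by simp; omega)
  have hL : [e', d', e, d, a, b, c, a', b', c'].Nodup :=
    List.nodup_cons.mpr ⟨he2, List.nodup_cons.mpr ⟨hd2, List.nodup_cons.mpr ⟨he1,
      List.nodup_cons.mpr ⟨hd1, h0⟩⟩⟩⟩
  have key : ∀ idx : List (Fin 10), idx.Nodup →
      (idx.map [e', d', e, d, a, b, c, a', b', c'].get).Nodup :=
    fun idx h => h.map (List.nodup_iff_injective_get.mp hL)
  -- 0 e', 1 d', 2 e, 3 d, 4 a, 5 b, 6 c, 7 a', 8 b', 9 c'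
  have n1 : [a, b, d, e].Nodup := key [4, 5, 3, 2] (by decide)
  have n2 : [b, c, d, e].Nodup := key [5, 6, 3, 2] (by decide)
  have n1' : [a', b', d', e'].Nodup := key [7, 8, 1, 0] (by decide)
  have n2' : [b', c', d', e'].Nodup := key [8, 9, 1, 0] (by decide)
  have m11 : [a, b, d, e, a', b', d', e'].Nodup := key [4, 5, 3, 2, 7, 8, 1, 0] (by decide)
  have m12 : [a, b, d, e, b', c', d', e'].Nodup := key [4, 5, 3, 2, 8, 9, 1, 0] (by decide)
  have m21 : [b, c, d, e, a', b', d', e'].Nodup := key [5, 6, 3, 2, 7, 8, 1, 0] (by decide)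
  have m22 : [b, c, d, e, b', c', d', e'].Nodup := key [5, 6, 3, 2, 8, 9, 1, 0] (by decide)
  have ez : z = dt a b d e n1 * dt b c d e n2 := by
    refine Subtype.ext ?_
    rw [h3]
    change _ = Equiv.swap a b * Equiv.swap d e * (Equiv.swap b c * Equiv.swap d e)
    have e1 : Commute (Equiv.swap d e) (Equiv.swap b c) :=
      (Equiv.Perm.disjoint_swap_swap (key [3, 2, 5, 6] (by decide))).commute
    rw [mul_assoc, ← mul_assoc (Equiv.swap d e), e1.eq, mul_assoc (Equiv.swap b c),
      Equiv.swap_mul_self, mul_one]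
  have ez' : z' = dt a' b' d' e' n1' * dt b' c' d' e' n2' := by
    refine Subtype.ext ?_
    rw [h3']
    change _ = Equiv.swap a' b' * Equiv.swap d' e' * (Equiv.swap b' c' * Equiv.swap d' e')
    have e1 : Commute (Equiv.swap d' e') (Equiv.swap b' c') :=
      (Equiv.Perm.disjoint_swap_swap (key [1, 0, 8, 9] (by decide))).commute
    rw [mul_assoc, ← mul_assoc (Equiv.swap d' e'), e1.eq, mul_assoc (Equiv.swap b' c'),
      Equiv.swap_mul_self, mul_one]
  rw [ez, ez']
  refine d2_mul_left (d2_mul_right (dt_comm n1 n1' m11) ?_ ?_)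
    (d2_mul_right (dt_comm n2 n1' m21) ?_ ?_)
  · exact hw _ _ _ _ _ _ _ _ _ _ (dtr_dt _ _ _ _ n1) (dtr_dt _ _ _ _ n1') m11
  · exact hw _ _ _ _ _ _ _ _ _ _ (dtr_dt _ _ _ _ n1) (dtr_dt _ _ _ _ n2') m12
  · exact hw _ _ _ _ _ _ _ _ _ _ (dtr_dt _ _ _ _ n2) (dtr_dt _ _ _ _ n1') m21
  · exact hw _ _ _ _ _ _ _ _ _ _ (dtr_dt _ _ _ _ n2) (dtr_dt _ _ _ _ n2') m22

end V5helper87.ER
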