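import Pool.Agent.V5helper19.ER.Stm

set_option autoImplicit false
open Finset

namespace V5helper87.ER

open V5helper19.ER

lemma pick3 {X : Type} [Fintype X] [DecidableEq X] (hX : 4 ≤ Fintype.card X) (a b c : X) :
    ∃ q, q ≠ a ∧ q ≠ b ∧ q ≠ c := by
  by_contra hcon
  push Not at hcon
  have h1 : (Finset.univ : Finset X) ⊆ {a, b, c} := by
    intro q _
    rw [Finset.mem_insert, Finset.mem_insert, Finset.mem_singleton]
    by_cases h1 : q = a
    · exact Or.inl h1
    · by_cases h2 : q = b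
      · exact Or.inr (Or.inl h2)
      · exact Or.inr (Or.inr (hcon q h1 h2))
  have h2 := Finset.card_le_card h1
  have h3 : ({a, b, c} : Finset X).card ≤ 3 := Finset.card_le_three
  rw [Finset.card_univ] at h2
  omega

theorem t_OFF : S_OFF := by
  intro X _ _ hX M h
  have hX4 : 4 ≤ Fintype.card X := by omega
  have hne : Nonempty X := Fintype.card_pos_iff.mp (by omega)
  obtain ⟨r₀⟩ := hne
  obtain ⟨r₁, hr1, -, -⟩ := pick3 hX4 r₀ r₀ r₀
  choose p hp1 hp2 _ using fun r : X => pick3 hX4 r r₀ r₀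
  let γ : X → ℝ := fun r => M (p r) r - M (p r) r₀
  have hγ : ∀ q r, r ≠ r₀ → q ≠ r → q ≠ r₀ → M q r = M q r₀ + γ r := by
    intro q r h1 h2 h3
    by_cases h4 : q = p r
    · subst h4
      change _ = _ + (M (p r) r - M (p r) r₀)
      ring
    · have := h q (p r) r r₀ h4 h1 h2 h3 (hp1 r) (hp2 r)
      change _ = _ + (M (p r) r - M (p r) r₀)
      linarith
  have hγ0 : ∀ r, r = r₀ → γ r = 0 := by
    intro r hr
    subst hr
    change M (p r) r - M (p r) r = 0
    ring
  refine ⟨fun q => if q = r₀ then M r₀ r₁ - γ r₁ else M q r₀, γ, ?_⟩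
  intro q r hqr
  change M q r = (if q = r₀ then M r₀ r₁ - γ r₁ else M q r₀) + γ r
  by_cases hq : q = r₀
  · subst hq
    rw [if_pos rfl]
    by_cases hr : r = r₁
    · subst hr
      ring
    · obtain ⟨q', h1, h2, h3⟩ := pick3 hX4 q r r₁
      have h4 := h q q' r r₁ h1.symm hr hqr hr1.symm h2 h3
      have h5 := hγ q' r hqr.symm h2 h1
      have h6 := hγ q' r₁ hr1 h3 h1
      linarith
  · rw [if_neg hq]
    by_cases hr : r = r₀
    · rw [hγ0 r hr, hr]
      ring
    · exact hγ q r hr hqr hq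

end V5helper87.ER
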