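import Pool.Agent.V5helper19.ER.Stm

set_option autoImplicit false
open Finset

namespace V5helper87.ER

theorem p4_aux (m t j : ℕ) (hj : j ≤ t) (ht : t ≤ m) :
    m.choose j ≤
      (univ.filter fun γ : Fin m → Bool × Bool => V5helper19.ER.sup γ = t).card := by
  classical
  have hex : ∀ P : Finset (Fin m), P.card = j → ∃ S, P ⊆ S ∧ S.card = t := fun P hP =>
    Finset.exists_superset_card_eq (by omega) (by rw [Fintype.card_fin]; exact ht)
  choose S hS1 hS2 using hex
  let f : Finset (Fin m) → (Fin m → Bool × Bool) := fun P =>
    if h : P.card = j then (fun i => if i ∈ P then (true, true) else
      if i ∈ S P h then (true, false) else (false, false)) else fun _ => (false, false)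
  have hf : ∀ (P : Finset (Fin m)) (h : P.card = j) (i : Fin m), f P i =
      if i ∈ P then (true, true) else if i ∈ S P h then (true, false) else (false, false) := by
    intro P h i
    change (if h : P.card = j then (fun i => if i ∈ P then (true, true) else
      if i ∈ S P h then (true, false) else (false, false)) else fun _ => (false, false)) i = _
    rw [dif_pos h]
  calc m.choose j = (powersetCard j (univ : Finset (Fin m))).card := by
        rw [card_powersetCard, card_univ, Fintype.card_fin]
    _ ≤ _ := by
      refine card_le_card_of_injOn f ?_ ?_
      · intro P hP
        have hP' : P.card = j := (mem_powersetCard.mp (mem_coe.mp hP)).2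
        rw [mem_coe, mem_filter]
        refine ⟨mem_univ _, ?_⟩
        unfold V5helper19.ER.sup
        rw [← hS2 P hP']
        congr 1
        ext i
        rw [mem_filter, hf P hP' i]
        constructor
        · rintro ⟨-, h⟩
          by_cases h1 : i ∈ P
          · exact hS1 P hP' h1
          · rw [if_neg h1] at h
            by_cases h2 : i ∈ S P hP'
            · exact h2
            · rw [if_neg h2] at h
              exact absurd rfl h
        · intro h
          refine ⟨mem_univ _, ?_⟩
          by_cases h1 : i ∈ P
          · rw [if_pos h1]
            decide
          · rw [if_neg h1, if_pos h]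
            decide
      · intro P hP Q hQ hPQ
        have hP' : P.card = j := (mem_powersetCard.mp (mem_coe.mp hP)).2
        have hQ' : Q.card = j := (mem_powersetCard.mp (mem_coe.mp hQ)).2
        have key : ∀ (R : Finset (Fin m)) (h : R.card = j) (i : Fin m),
            f R i = (true, true) ↔ i ∈ R := by
          intro R h i
          rw [hf R h i]
          constructor
          · intro h1
            by_contra h2
            rw [if_neg h2] at h1
            by_cases h3 : i ∈ S R h
            · rw [if_pos h3] at h1
              exact absurd h1 (by decide)
            · rw [if_neg h3] at h1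
              exact absurd h1 (by decide)
          · intro h1
            rw [if_pos h1]
        ext i
        rw [← key P hP' i, ← key Q hQ' i, hPQ]

theorem t_P4 : V5helper19.ER.S_P4 := by
  intro m t ht
  refine ⟨fun h => p4_aux m t 2 h ht, fun h => ?_⟩
  have h1 := p4_aux m t 1 h ht
  rwa [Nat.choose_one_right] at h1

end V5helper87.ER
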