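import Pool.Agent.V5helper87.ER.DT
import Mathlib.GroupTheory.GroupAction.MultipleTransitivity

set_option autoImplicit false
open Finset

namespace V5helper87.ER

open V5helper19.ER

/-- A function which is invariant under right multiplication by all double transpositions is
constant. -/
lemma const_of_dt {n : ℕ} (hn : 5 ≤ n) (w : G n → ℝ)
    (h : ∀ (a b c d : Fin n) (hd : [a, b, c, d].Nodup) (t : G n), w (t * dt a b c d hd) = w t)
    (x y : G n) : w x = w y := by
  have h3 : ∀ z : Equiv.Perm (Fin n), z.IsThreeCycle → ∃ hz : z ∈ alternatingGroup (Fin n),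
      ∀ t : G n, w (t * ⟨z, hz⟩) = w t := by
    intro z hz
    have hz' := hz.mem_alternatingGroup
    refine ⟨hz', fun t => ?_⟩
    obtain ⟨a, b, c, h1, h2, h3⟩ := three_cycle hz
    obtain ⟨d, hd1⟩ := new_point [a, b, c] (by simp; omega)
    obtain ⟨e, he1⟩ := new_point [d, a, b, c] (by simp; omega)
    have hL : [e, d, a, b, c].Nodup :=
      List.nodup_cons.mpr ⟨he1, List.nodup_cons.mpr ⟨hd1, h1⟩⟩
    have key : ∀ idx : List (Fin 5), idx.Nodup → (idx.map [e, d, a, b, c].get).Nodup :=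
      fun idx h => h.map (List.nodup_iff_injective_get.mp hL)
    have n1 : [a, b, d, e].Nodup := key [2, 3, 1, 0] (by decide)
    have n2 : [b, c, d, e].Nodup := key [3, 4, 1, 0] (by decide)
    have ez : (⟨z, hz'⟩ : G n) = dt a b d e n1 * dt b c d e n2 := by
      refine Subtype.ext ?_
      change z = Equiv.swap a b * Equiv.swap d e * (Equiv.swap b c * Equiv.swap d e)
      have e1 : Commute (Equiv.swap d e) (Equiv.swap b c) :=
        (Equiv.Perm.disjoint_swap_swap (key [1, 0, 3, 4] (by decide))).commute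
      rw [h3, mul_assoc, ← mul_assoc (Equiv.swap d e), e1.eq, mul_assoc (Equiv.swap b c),
        Equiv.swap_mul_self, mul_one]
    rw [ez, ← mul_assoc, h, h]
  have h4 : ∀ g : Equiv.Perm (Fin n),
      g ∈ Subgroup.closure {σ : Equiv.Perm (Fin n) | σ.IsThreeCycle} →
      ∃ hg : g ∈ alternatingGroup (Fin n), ∀ t : G n, w (t * ⟨g, hg⟩) = w t := by
    intro g hg
    induction hg using Subgroup.closure_induction with
    | mem z hz => exact h3 z hz
    | one =>
      refine ⟨one_mem _, fun t => ?_⟩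
      have e : t * (⟨1, one_mem _⟩ : G n) = t := mul_one t
      rw [e]
    | mul x y _ _ hx hy =>
      obtain ⟨hx, px⟩ := hx
      obtain ⟨hy, py⟩ := hy
      refine ⟨mul_mem hx hy, fun t => ?_⟩
      have e : t * (⟨x * y, mul_mem hx hy⟩ : G n) = t * ⟨x, hx⟩ * ⟨y, hy⟩ := by
        rw [mul_assoc]
        rfl
      rw [e, py, px]
    | inv x _ hx =>
      obtain ⟨hx, px⟩ := hx
      refine ⟨inv_mem hx, fun t => ?_⟩
      have e : t * (⟨x⁻¹, inv_mem hx⟩ : G n) * ⟨x, hx⟩ = t := by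
        have e2 : (⟨x⁻¹, inv_mem hx⟩ : G n) = (⟨x, hx⟩ : G n)⁻¹ := rfl
        rw [e2, inv_mul_cancel_right]
      rw [← px (t * ⟨x⁻¹, inv_mem hx⟩), e]
  have h5 : ((y⁻¹ * x : G n) : Equiv.Perm (Fin n)) ∈
      Subgroup.closure {σ : Equiv.Perm (Fin n) | σ.IsThreeCycle} := by
    rw [Equiv.Perm.closure_three_cycles_eq_alternating]
    exact (y⁻¹ * x).2
  obtain ⟨h6, h7⟩ := h4 _ h5
  have h8 := h7 y
  have e : y * (⟨((y⁻¹ * x : G n) : Equiv.Perm (Fin n)), h6⟩ : G n) = x :=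
    mul_inv_cancel_left y x
  rw [e] at h8
  exact h8

/-- An embedding of blocks with a prescribed block. -/
lemma exists_blocks {n m : ℕ} (h : 4 * m ≤ n) (i₀ : Fin m) (a b c d : Fin n)
    (hd : [a, b, c, d].Nodup) : ∃ e : Fin m × Fin 4 ↪ Fin n,
      e (i₀, 0) = a ∧ e (i₀, 1) = b ∧ e (i₀, 2) = c ∧ e (i₀, 3) = d := by
  classical
  have h1 : Fintype.card (Fin m × Fin 4) ≤ Fintype.card (Fin n) := by
    rw [Fintype.card_prod, Fintype.card_fin, Fintype.card_fin, Fintype.card_fin]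
    omega
  obtain ⟨e₀⟩ := Function.Embedding.nonempty_of_card_le h1
  let f : Fin 4 ↪ Fin n := ⟨fun r => e₀ (i₀, r), fun r s hrs => by
    have h2 := e₀.injective hrs
    exact (Prod.ext_iff.mp h2).2⟩
  let g : Fin 4 ↪ Fin n := ⟨[a, b, c, d].get, List.nodup_iff_injective_get.mp hd⟩
  have hp : MulAction.IsMultiplyPretransitive (Equiv.Perm (Fin n)) (Fin n) 4 :=
    Equiv.Perm.isMultiplyPretransitive (Fin n) 4
  obtain ⟨σ, hσ⟩ := hp.exists_smul_eq f g
  have h3 : ∀ r, σ (e₀ (i₀, r)) = g r := fun r => by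
    have := DFunLike.congr_fun hσ r
    exact this
  exact ⟨e₀.trans σ.toEmbedding, h3 0, h3 1, h3 2, h3 3⟩

lemma isCol_smul {n m : ℕ} {e : Fin m × Fin 4 ↪ Fin n} {γ : Fin m → Bool × Bool} {w : G n → ℝ}
    (h : IsCol e γ w) (r : ℝ) : IsCol e γ (r • w) := by
  intro i x y
  refine ⟨fun hy => ?_, fun hy => ?_⟩
  · rw [Pi.smul_apply, Pi.smul_apply, (h i x y).1 hy, smul_eq_mul, smul_eq_mul]
    ring
  · rw [Pi.smul_apply, Pi.smul_apply, (h i x y).2 hy, smul_eq_mul, smul_eq_mul]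
    ring

theorem t_R1 (hP1 : S_P1) (hP2 : S_P2) (hP3 : S_P3) (hP4 : S_P4) : S_R1 := by
  classical
  rintro n hn W hW ⟨w, hw, x, y, hxy⟩
  -- a double transposition which does not fix `w`
  obtain ⟨a, b, c, d, hd, t, ht⟩ : ∃ (a b c d : Fin n) (hd : [a, b, c, d].Nodup) (t : G n),
      w (t * dt a b c d hd) ≠ w t := by
    by_contra hcon
    push Not at hcon
    exact hxy (const_of_dt (by omega) w hcon x y)
  obtain ⟨m, hm⟩ : ∃ m, m = (n - 2) / 4 := ⟨_, rfl⟩
  have hm1 : 4 * m + 2 ≤ n := by omega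
  have hm2 : n ≤ 4 * m + 5 := by omega
  have hm3 : 0 < m := by omega
  obtain ⟨e, e0, e1, e2, e3⟩ := exists_blocks (n := n) (m := m) (by omega) ⟨0, hm3⟩ a b c d hd
  have huu : ((dt a b c d hd : G n) : Equiv.Perm (Fin n)) = uu e ⟨0, hm3⟩ := by
    unfold uu
    rw [e0, e1, e2, e3]
    rfl
  obtain ⟨γ, w', hw', hne, hcol, hsup⟩ := (hP1 n m e W hW).2.2 w ⟨0, hm3⟩ (dt a b c d hd) hw huu
    ⟨t, ht⟩
  have hle : V5helper19.ER.sup γ ≤ m := by
    unfold V5helper19.ER.sup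
    have := Finset.card_le_univ (univ.filter fun i => γ i ≠ (false, false))
    rwa [Fintype.card_fin] at this
  have hall : ∀ γ' : Fin m → Bool × Bool, V5helper19.ER.sup γ' = V5helper19.ER.sup γ →
      ∃ v ∈ W, v ≠ 0 ∧ IsCol e γ' v := fun γ' h =>
    hP2 n m hm1 e e W hW γ γ' h.symm ⟨w', hw', hne, hcol⟩
  choose v hv1 hv2 hv3 using hall
  have h4 := (hP4 m (V5helper19.ER.sup γ) hle).2 hsup
  obtain ⟨U, hU⟩ : ∃ U : (Fin m → Bool × Bool) → Submodule ℝ (G n → ℝ), ∀ γ'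
      (h : V5helper19.ER.sup γ' = V5helper19.ER.sup γ), U γ' = Submodule.span ℝ {v γ' h} :=
    ⟨fun γ' => if h : V5helper19.ER.sup γ' = V5helper19.ER.sup γ then
      Submodule.span ℝ {v γ' h} else ⊥, fun γ' h => dif_pos h⟩
  have h5 := hP3 n m e W
    (univ.filter fun γ' : Fin m → Bool × Bool => V5helper19.ER.sup γ' = V5helper19.ER.sup γ)
    U 1 (by
    intro γ' hγ'
    have h6 := (mem_filter.mp hγ').2
    rw [hU γ' h6]
    refine ⟨?_, ?_, ?_⟩
    · rw [Submodule.span_singleton_le_iff_mem]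
      exact hv1 γ' h6
    · rw [finrank_span_singleton (hv2 γ' h6)]
    · intro u hu
      obtain ⟨r, rfl⟩ := Submodule.mem_span_singleton.mp hu
      exact isCol_smul (hv3 γ' h6) r)
  rw [one_mul] at h5
  have h6 : m ≤ Module.finrank ℝ W := h4.trans h5
  have h7 : (m : ℝ) ≤ Module.finrank ℝ W := by exact_mod_cast h6
  have h8 : (n : ℝ) ≤ 4 * m + 5 := by exact_mod_cast hm2
  linarith

end V5helper87.ER
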